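import Pool.Agent.Lib.helper10.Kit
import Pool.Agent.Lib.helper10.Sat3

namespace Pool.Agent.Results.MP_bfbf95_lc.NPHard

open Pool.Agent.Cx Pool.Agent.Cis Finset

/-- the total domination number -/
noncomputable def gammaT {V : Type} (G : SimpleGraph V) : ℕ :=
  sInf {k | ∃ S : Finset V, S.card = k ∧ ∀ v, ∃ u ∈ S, G.Adj v u}

/-- the sub-total domination number: the least `k` such that some `k` vertices (equivalently, the `k`
vertices of largest degree) have degree sum at least the number of vertices -/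
noncomputable def subT {V : Type} (G : SimpleGraph V) : ℕ :=
  sInf {k | ∃ S : Finset V, S.card = k ∧ Nat.card V ≤ ∑ v ∈ S, (G.neighborSet v).ncard}

/-- `M` is the adjacency matrix of a graph without isolated vertices with `γ_t = sub_t` -/
def TdsEq (M : List (List Bool)) : Prop :=
  IsGraph M ∧ (∀ v, ∃ u, (graphOf M).Adj v u) ∧ gammaT (graphOf M) = subT (graphOf M)

abbrev T := ℕ × ℕ × ℕ

def rel (I : ℕ → ℕ × ℕ → Prop) (p q : T) : Prop :=
  p.1 = 0 ∧ ((q.1 = 0 ∧ p.2 ≠ q.2) ∨ (q.1 = 1 ∧ p.2.1 = q.2.1) ∨ (q.1 = 2 ∧ I q.2.1 p.2))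

def adj (I : ℕ → ℕ × ℕ → Prop) (p q : T) : Prop := rel I p q ∨ rel I q p

def ok (n m : ℕ) (p : T) : Prop := (p.1 = 0 ∧ p.2.1 < n ∧ p.2.2 < 2) ∨
  (p.1 = 1 ∧ p.2.1 < n ∧ p.2.2 < 3 * n * n) ∨ (p.1 = 2 ∧ p.2.1 < m ∧ p.2.2 = 0)

section
variable {V : Type} [Fintype V] {G : SimpleGraph V} {n m : ℕ} {I : ℕ → ℕ × ℕ → Prop} {f : V → T}
  (h1 : ∀ a c, G.Adj a c ↔ adj I (f a) (f c)) (h2 : ∀ p, (∃ a, f a = p) ↔ ok n m p)
  (h3 : f.Injective) (hn : 3 ≤ n) (hm : m ≤ n)
include h1 h2 h3 hn hm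

lemma sub : subT G = n := by
  classical
  have o : ∀ a, ok n m (f a) := fun a => (h2 _).1 ⟨a, rfl⟩
  have up : ∀ (A : Set V) (B : Finset T), (∀ a ∈ A, f a ∈ B) → A.ncard ≤ B.card := fun A B h => by
    simpa using Set.ncard_le_ncard_of_injOn (t := (B : Set T)) f h h3.injOn
  have lo : ∀ (A : Set V) (B : Finset T), (∀ p ∈ B, ok n m p ∧ ∀ a, f a = p → a ∈ A) → B.card ≤ A.ncard :=
    fun A B h => by
      rw [← Set.ncard_image_of_injective _ h3, ← Set.ncard_coe_finset]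
      exact Set.ncard_le_ncard fun p hp => let ⟨a, e⟩ := (h2 p).2 (h p hp).1; ⟨a, (h p hp).2 a e, e⟩
  have U := fun A B C : Finset T => (card_union_le (A ∪ B) C).trans (add_le_add_left (card_union_le A B) _)
  refine IsLeast.csInf_eq ⟨⟨univ.filter fun a => f a ∈ {0} ×ˢ range n ×ˢ {0}, ?_, ?_⟩, ?_⟩
  · rw [← Set.ncard_coe_finset]
    exact le_antisymm ((up _ _ (by simp)).trans (by simp : ({0} ×ˢ range n ×ˢ {0} : Finset T).card ≤ _))
      ((lo _ ({0} ×ˢ range n ×ˢ {0}) fun p hp =>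
        ⟨by simp only [ok, mem_product, mem_range, mem_singleton] at *; omega, by simp_all⟩).trans' (by simp))
  · have a := (up .univ ({0} ×ˢ range n ×ˢ range 2 ∪ {1} ×ˢ range n ×ˢ range (3 * n * n) ∪
      {2} ×ˢ range m ×ˢ {0}) fun a _ => by
        have := o a; simp only [ok, mem_union, mem_product, mem_range, mem_singleton] at *; omega).trans (U _ _ _)
    have b := (lo _ ({0} ×ˢ range n ×ˢ {0}) fun p hp =>
      ⟨by simp only [ok, mem_product, mem_range, mem_singleton] at *; omega, fun a e =>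
      (by simp_all : a ∈ ((univ.filter fun a => f a ∈ {0} ×ˢ range n ×ˢ {0} : Finset V) : Set V))⟩)
    refine le_trans ?_ (card_nsmul_le_sum _ _ (3 * n * n + n) fun a ha => (lo _ ({1} ×ˢ {(f a).2.1} ×ˢ
      range (3 * n * n) ∪ {0} ×ˢ range n ×ˢ {1}) fun p hp => ?_).trans' ?_)
    · simp only [card_product, card_range, card_singleton, Set.ncard_univ, Set.ncard_coe_finset,
        smul_eq_mul] at a b ⊢
      nlinarith [Nat.mul_le_mul_right (3 * n * n + n) b]
    · simp only [ok, mem_union, mem_product, mem_range, mem_singleton, mem_filter, mem_univ, true_and,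
        SimpleGraph.mem_neighborSet, h1, adj, rel, ne_eq, Prod.ext_iff] at *
      exact ⟨by omega, fun _ _ => Or.inl ⟨by omega, by omega⟩⟩
    · rw [card_union_of_disjoint (by simp [disjoint_left])]; simp
  · rintro k ⟨S, rfl, h⟩
    have a := lo .univ ({1} ×ˢ range n ×ˢ range (3 * n * n)) fun p hp =>
      ⟨by simp only [ok, mem_product, mem_range, mem_singleton] at *; omega, by simp⟩
    have b := h.trans (sum_le_card_nsmul _ _ (3 * n * n + 3 * n) fun a _ => (up _ ({0} ×ˢ range n ×ˢ range 2 ∪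
      {1} ×ˢ {(f a).2.1} ×ˢ range (3 * n * n) ∪ {2} ×ˢ range m ×ˢ {0}) fun b hb => by
        have := o b
        simp only [ok, mem_union, mem_product, mem_range, mem_singleton, SimpleGraph.mem_neighborSet, h1,
          adj, rel] at *
        omega).trans ((U _ _ _).trans (by simp; omega)))
    simp only [card_product, card_range, card_singleton, Set.ncard_univ, smul_eq_mul] at a b
    by_contra c
    nlinarith [Nat.mul_le_mul_right (3 * n * n + 3 * n) (not_le.1 c : S.card + 1 ≤ n)]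

omit h3 hm [Fintype V] in
lemma pick {S : Finset V} (h : ∀ v, ∃ u ∈ S, G.Adj v u) :
    ∃ u : Fin n → S, u.Injective ∧ ∀ i, (f (u i)).2.1 = i := by
  have : ∀ i : Fin n, ∃ u : S, (f u).2.1 = i := fun i => by
    obtain ⟨a, e⟩ := (h2 (1, i, 0)).2 (by simp [ok]; omega)
    obtain ⟨u, b, c⟩ := h a
    exact ⟨⟨u, b⟩, by simp [h1, e, adj, rel] at c; exact c.2⟩
  choose u hu using this
  exact ⟨u, fun i j e => Fin.ext (by rw [← hu, e, hu]), hu⟩

lemma main (hI : ∀ h < m, ∃ p, I h p ∧ p.1 < n ∧ p.2 < 2) : (∀ v, ∃ u, G.Adj v u) ∧ (gammaT G = subT G ↔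
    ∃ τ : ℕ → Bool, ∀ h < m, ∃ i < n, I h (i, (τ i).toNat)) := by
  classical
  have dom : ∀ S : Finset V, (∀ i < n, ∃ a ∈ S, (f a).1 = 0 ∧ (f a).2.1 = i) →
      (∀ h < m, ∃ a ∈ S, (f a).1 = 0 ∧ I h (f a).2) → ∀ v, ∃ u ∈ S, G.Adj v u := fun S a b v => by
    rcases (h2 _).1 ⟨v, rfl⟩ with e | e | e
    · obtain ⟨u, c, d⟩ := a (if (f v).2.1 = 0 then 1 else 0) (by split_ifs <;> omega)
      exact ⟨u, c, by simp only [h1, adj, rel, ne_eq, Prod.ext_iff]; left; split_ifs at d <;> omega⟩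
    · obtain ⟨u, c, d⟩ := a _ e.2.1
      exact ⟨u, c, by simp [h1, adj, rel, d, e]⟩
    · obtain ⟨u, c, d⟩ := b _ e.2.1
      exact ⟨u, c, by simp [h1, adj, rel, d, e]⟩
  have al := dom univ (fun i hi => let ⟨a, e⟩ := (h2 (0, i, 0)).2 (by simp [ok, hi]); ⟨a, by simp [e]⟩)
    fun h hh => let ⟨p, b, c⟩ := hI h hh; let ⟨a, e⟩ := (h2 (0, p)).2 (by simp [ok, c]); ⟨a, by simp [e, b]⟩
  refine ⟨fun v => (al v).imp fun _ h => h.2, ?_⟩
  rw [sub h1 h2 h3 hn hm]
  constructor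
  · intro e
    obtain ⟨S, c, h⟩ : ∃ S : Finset V, S.card = gammaT G ∧ ∀ v, ∃ u ∈ S, G.Adj v u :=
      Nat.sInf_mem (s := {k | ∃ S : Finset V, S.card = k ∧ ∀ v, ∃ u ∈ S, G.Adj v u}) ⟨_, _, rfl, al⟩
    obtain ⟨u, u1, u2⟩ := pick h1 h2 hn h
    have u3 := ((Fintype.bijective_iff_injective_and_card u).2 ⟨u1, by simp [c, e]⟩).2
    refine ⟨fun i => ∃ a ∈ S, (f a).2 = (i, 1), fun k hk => ?_⟩
    obtain ⟨v, hv⟩ := (h2 (2, k, 0)).2 (by simp [ok, hk])
    obtain ⟨a, b, d⟩ := h v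
    simp [h1, hv, adj, rel] at d
    have o := (h2 _).1 ⟨a, rfl⟩
    simp [ok, d.1] at o
    refine ⟨_, o.1, ?_⟩
    convert d.2
    beta_reduce
    by_cases g : (f a).2.2 = 1
    · rw [decide_eq_true (p := ∃ _ ∈ S, _) ⟨a, b, by rw [← g]⟩]; simp [g]
    · rw [decide_eq_false]
      · exact ((Nat.le_one_iff_eq_zero_or_eq_one.1 o.2).resolve_right g).symm
      rintro ⟨x, y, z⟩
      obtain ⟨i, hi⟩ := u3 ⟨a, b⟩; obtain ⟨j, hj⟩ := u3 ⟨x, y⟩
      have p := u2 i; have q := u2 j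
      simp only [hi, hj, z] at p q
      obtain rfl : i = j := Fin.ext (p.symm.trans q)
      obtain rfl : a = x := by simpa using hi.symm.trans hj
      exact g (by rw [z])
  · rintro ⟨τ, h⟩
    have : ∀ i : Fin n, ∃ a, f a = (0, i.1, (τ i).toNat) := fun i =>
      (h2 _).2 (by have := (τ i).toNat_le; simp [ok]; omega)
    choose u hu using this
    refine IsLeast.csInf_eq ⟨⟨univ.image u, ?_, dom _ (fun i hi => ⟨u ⟨i, hi⟩, by simp [hu]⟩) fun k hk => ?_⟩, ?_⟩
    · rw [card_image_of_injective _ fun i j e => Fin.ext (by simpa [hu] using congrArg (f · |>.2.1) e)]; simp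
    · obtain ⟨i, hi, e⟩ := h k hk
      exact ⟨u ⟨i, hi⟩, by simp [hu, e]⟩
    · rintro k ⟨S, rfl, h⟩
      obtain ⟨u, u1, -⟩ := pick h1 h2 hn h
      simpa using Fintype.card_le_of_injective u u1

end

abbrev F := List (Lit × Lit × Lit)

def cd (l : Lit) : ℕ × ℕ := (l.1, l.2.toNat)

def mem (φ : F) (h : ℕ) : List (ℕ × ℕ) :=
  (fun c => [cd c.1, cd c.2.1, cd c.2.2]) (φ.getD h ((0, false), (0, false), (0, false)))

instance (I : ℕ → ℕ × ℕ → Prop) [∀ a b, Decidable (I a b)] : DecidableRel (adj I) := fun _ _ => by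
  unfold adj rel; infer_instance

instance (n m : ℕ) : DecidablePred (ok n m) := fun _ => by unfold ok; infer_instance

def verts (φ : F) : List T :=
  (List.range 3 ×ˢ List.range (size φ + 3) ×ˢ List.range (3 * (size φ + 3) * (size φ + 3))).filter fun p =>
    decide (ok (size φ + 3) φ.length p)

def red (φ : F) : List (List Bool) := mat (verts φ) fun p q => decide (adj (fun h c => c ∈ mem φ h) p q)

lemma red_pt : PT red := by
  have a : PT fun z : F × ℕ => mem z.1 z.2 := by unfold mem cd; fun_prop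
  have b : PP fun z : F × T × T => rel (fun h c => c ∈ mem z.1 h) z.2.1 z.2.2 := by unfold rel; fun_prop
  unfold red verts
  refine PT.mat (PT.filter (PP.decide ?_) (by fun_prop)) (PP.decide (b.or ?_))
  · unfold ok; fun_prop
  · exact b.comp (f := fun z : F × T × T => (z.1, z.2.2, z.2.1)) (by fun_prop)

lemma red_iff (φ : F) : Sat3 φ ↔ TdsEq (red φ) := by
  obtain ⟨g, f, h1, h2, h3, -⟩ := graph_kit (verts φ) (adj fun h c => c ∈ mem φ h) (fun _ _ => Or.symm)
    (fun p => by simp only [adj, rel]; grind)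
    ((List.nodup_range.product (List.nodup_range.product List.nodup_range)).filter _) (M := red φ) rfl
  have hm : φ.length ≤ size φ + 3 := (length_lt_size φ).le.trans (by omega)
  have h2' : ∀ p, (∃ a, f a = p) ↔ ok (size φ + 3) φ.length p := by
    rintro ⟨a, b, c⟩
    have : 2 < 3 * (size φ + 3) * (size φ + 3) := by nlinarith
    simp only [h2, verts, List.mem_filter, List.mem_product, List.mem_range, decide_eq_true_eq]
    simp only [ok]; omega
  have lt : ∀ c ∈ φ, c.1.1 < size φ ∧ c.2.1.1 < size φ ∧ c.2.2.1 < size φ := by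
    rintro ⟨⟨a, _⟩, ⟨b, _⟩, ⟨c, _⟩⟩ hc
    have := size_lt_of_mem hc
    simp at *; omega
  have m1 : ∀ h (e : h < φ.length), mem φ h = [cd φ[h].1, cd φ[h].2.1, cd φ[h].2.2] := fun h e => by
    simp [mem, e]
  obtain ⟨a, b⟩ := main h1 h2' h3 (by omega) hm fun h e => ⟨cd φ[h].1, by simp [m1 h e], by
    have := lt _ (List.getElem_mem e); have := φ[h].1.2.toNat_le; simp only [cd]; omega⟩
  have t : ∀ x y : Bool, x.toNat = y.toNat ↔ x = y := by decide
  simp only [TdsEq, g, a, b, true_and, implies_true]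
  refine exists_congr fun τ => ⟨fun h k hk => ?_, fun h x hx => ?_⟩
  · have := lt _ (List.getElem_mem hk)
    rcases h _ (List.getElem_mem hk) with e | e | e
    exacts [⟨φ[k].1.1, by omega, by simp [m1 k hk, cd, e]⟩, ⟨φ[k].2.1.1, by omega, by simp [m1 k hk, cd, e]⟩,
      ⟨φ[k].2.2.1, by omega, by simp [m1 k hk, cd, e]⟩]
  · obtain ⟨k, hk, rfl⟩ := List.getElem_of_mem hx
    obtain ⟨i, -, e⟩ := h k hk
    simp only [m1 k hk, cd, List.mem_cons, Prod.mk.injEq, t] at e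
    grind

theorem result : NPHard (Lang TdsEq) := (hard_sat3.red red_pt red_iff).npHard

end Pool.Agent.Results.MP_bfbf95_lc.NPHard
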